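import Pool.Agent.U260.CX4

/-!
# The critical slope of the copolymer model at `α = 1/2` is larger than `0.71`

There is `ε > 0` such that for every renewal law with tail exponent `1/2` and every disorder law
with mean `0`, variance `1` and all exponential moments, `h_c(λ) ≥ (0.71 + ε) λ` for all
sufficiently small `λ > 0`.  So `m_{1/2} > 0.71 > 2/3`.
-/

set_option autoImplicit false
open MeasureTheory ProbabilityTheory Filter Topology
open scoped ENNReal NNReal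

namespace Pool.Agent.Results.MP_c26281_pr.StrictSlopeHalf

/-- law of one (gap, sign) pair: gap with law `κ`, sign uniform on `{false, true}` -/
noncomputable def stepLaw (κ : PMF ℕ) : Measure (ℕ × Bool) :=
  κ.toMeasure.prod (PMF.uniformOfFintype Bool).toMeasure

instance instStepLaw (κ : PMF ℕ) : IsProbabilityMeasure (stepLaw κ) := by
  unfold stepLaw; infer_instance

/-- law of the i.i.d. sequence of (gap, sign) pairs -/
noncomputable def pathMeasure (κ : PMF ℕ) : Measure (ℕ → ℕ × Bool) :=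
  Measure.infinitePi (fun _ : ℕ => stepLaw κ)

/-- renewal points `τ_0 = 0`, `τ_j` = sum of the first `j` gaps -/
def tau (x : ℕ → ℕ × Bool) (j : ℕ) : ℕ := ∑ i ∈ Finset.range j, (x i).1

/-- `Δ_n` = sign of the excursion `(τ_j, τ_{j+1}]` containing `n` (as a real number 0 or 1) -/
noncomputable def Delta (x : ℕ → ℕ × Bool) (n : ℕ) : ℝ :=
  ∑ j ∈ Finset.range n, if tau x j < n ∧ n ≤ tau x (j + 1) ∧ (x j).2 = true then 1 else 0

/-- the copolymer partition function `Z_{N,ω}` -/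
noncomputable def Z (κ : PMF ℕ) (lam h : ℝ) (N : ℕ) (ω : ℕ → ℝ) : ℝ :=
  ∫ x, Real.exp (-2 * lam * ∑ n ∈ Finset.Icc 1 N, Delta x n * (ω n + h)) ∂(pathMeasure κ)

/-- i.i.d. disorder with law `ν` (the coordinates `1, 2, ...` are used) -/
noncomputable def disorder (ν : Measure ℝ) [IsProbabilityMeasure ν] : Measure (ℕ → ℝ) :=
  Measure.infinitePi (fun _ : ℕ => ν)

/-- `N⁻¹ E log Z_N` -/
noncomputable def feN (κ : PMF ℕ) (ν : Measure ℝ) [IsProbabilityMeasure ν] (lam h : ℝ) (N : ℕ) : ℝ :=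
  (N : ℝ)⁻¹ * ∫ ω, Real.log (Z κ lam h N ω) ∂(disorder ν)

/-- the free energy `f(λ,h)` -/
noncomputable def freeEnergy (κ : PMF ℕ) (ν : Measure ℝ) [IsProbabilityMeasure ν] (lam h : ℝ) : ℝ :=
  limUnder atTop (feN κ ν lam h)

/-- the critical curve `h_c(λ) = sup {h : f(λ,h) > 0}` -/
noncomputable def hcrit (κ : PMF ℕ) (ν : Measure ℝ) [IsProbabilityMeasure ν] (lam : ℝ) : ℝ :=
  sSup {h : ℝ | 0 < freeEnergy κ ν lam h}

/-- the law `κ` of the gaps lives on the positive integers and `κ(n) ∼ cK n^{-(1+α)}` -/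
def IsGapLaw (α : ℝ) (κ : PMF ℕ) : Prop :=
  κ 0 = 0 ∧ ∃ cK : ℝ, 0 < cK ∧
    Tendsto (fun n : ℕ => (n : ℝ) ^ (1 + α) * (κ n).toReal) atTop (𝓝 cK)

/-- mean `0`, variance `1`, all exponential moments -/
def IsChargeLaw (ν : Measure ℝ) : Prop :=
  ∫ x, x ∂ν = 0 ∧ ∫ x, x ^ 2 ∂ν = 1 ∧ ∀ t : ℝ, Integrable (fun x => Real.exp (t * x)) ν

/-- **The critical slope at `α = 1/2` is larger than `0.71`, in particular larger than `2/3`.** -/
theorem result :
    ∃ ε : ℝ, 0 < ε ∧ ∀ κ : PMF ℕ, IsGapLaw (1 / 2) κ →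
      ∀ (ν : Measure ℝ) [IsProbabilityMeasure ν], IsChargeLaw ν →
        (∀ lam, 0 < lam →
          (∀ h, 0 ≤ h → Tendsto (feN κ ν lam h) atTop (𝓝 (freeEnergy κ ν lam h))) ∧
          BddAbove {h : ℝ | 0 < freeEnergy κ ν lam h} ∧
          hcrit κ ν lam = sSup {h : ℝ | 0 ≤ h ∧ 0 < freeEnergy κ ν lam h} ∧
          (∀ h, 0 ≤ h → (0 < freeEnergy κ ν lam h ↔ h < hcrit κ ν lam))) ∧
        (∀ᶠ lam in 𝓝[>] 0, (71 / 100 + ε) * lam ≤ hcrit κ ν lam) ∧
        ∀ m : ℝ, Tendsto (fun lam => hcrit κ ν lam / lam) (𝓝[>] 0) (𝓝 m) →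
          71 / 100 + ε ≤ m ∧ 2 / 3 < m := by
  obtain ⟨ε, hε, hslope⟩ := Pool.Agent.U260.CS.half_slope
  refine ⟨ε, hε, ?_⟩
  intro κ hκ ν hν hch
  obtain ⟨h0, cK, hcK, htail⟩ := hκ
  obtain ⟨mean, var, expm⟩ := hch
  have hfirst : ∀ lam, 0 < lam →
      (∀ h, 0 ≤ h → Tendsto (feN κ ν lam h) atTop (𝓝 (freeEnergy κ ν lam h))) ∧
        BddAbove {h : ℝ | 0 < freeEnergy κ ν lam h} ∧
        hcrit κ ν lam = sSup {h : ℝ | 0 ≤ h ∧ 0 < freeEnergy κ ν lam h} ∧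
        (∀ h, 0 ≤ h → (0 < freeEnergy κ ν lam h ↔ h < hcrit κ ν lam)) := by
    intro lam hlam
    obtain ⟨f1, f2, f3, f4, f5, f6⟩ := Pool.Agent.U260.CS.crit_facts
      ⟨κ, h0, 1 / 2, cK, by norm_num, hcK, htail, ν, hν, mean, var, expm, lam, hlam⟩
    exact ⟨f1, f2, f4, f5⟩
  have hevent : ∀ᶠ lam in 𝓝[>] (0 : ℝ), (71 / 100 + ε) * lam ≤ hcrit κ ν lam := by
    obtain ⟨lam0, hlam0, hs⟩ := hslope κ h0 cK hcK htail ν mean var expm
    have hev : ∀ᶠ lam in 𝓝[>] (0 : ℝ), lam < lam0 :=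
      nhdsWithin_le_nhds (gt_mem_nhds hlam0)
    filter_upwards [hev, self_mem_nhdsWithin] with lam hl hp
    have hp' : 0 < lam := hp
    have hpos := hs ⟨κ, h0, 1 / 2, cK, by norm_num, hcK, htail, ν, hν, mean, var, expm, lam, hp'⟩
      rfl rfl rfl hl
    exact (((hfirst lam hp').2.2.2 ((71 / 100 + ε) * lam) (by positivity)).1 hpos).le
  refine ⟨hfirst, hevent, fun m hm => ?_⟩
  have h1 : 71 / 100 + ε ≤ m := by
    refine ge_of_tendsto hm ?_
    filter_upwards [hevent, self_mem_nhdsWithin] with lam hl hp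
    have hp' : 0 < lam := hp
    rw [le_div_iff₀ hp']
    exact hl
  exact ⟨h1, by linarith⟩

end Pool.Agent.Results.MP_c26281_pr.StrictSlopeHalf
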